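import Pool.Agent.Helper77.DS.Kos

/-! DS-11b: functoriality of Koszul cycles -/

namespace Pool.Agent.Helper76.DS

open MvPolynomial Pool.Agent.Helper77 Pool.Agent.Helper77.DS

noncomputable section

/-- Functoriality of cycles modulo an ideal, for a ring map given by a matrix `K`. -/
theorem cyc_map {Ω Ω' : Type} [Fintype Ω] [Fintype Ω'] {p : ℕ}
    (φ : MvPolynomial Ω ℂ →ₐ[ℂ] MvPolynomial Ω' ℂ) (K : Ω' → Ω → ℂ)
    (hφ : ∀ α, φ (X α) = ∑ β, C (K β α) * X β)
    (J : Ideal (MvPolynomial Ω ℂ)) (J' : Ideal (MvPolynomial Ω' ℂ)) (hJ : ∀ f ∈ J, φ f ∈ J')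
    (c : (Fin (p + 1) → Ω) → MvPolynomial Ω ℂ)
    (c' : (Fin (p + 1) → Ω') → MvPolynomial Ω' ℂ)
    (hc' : ∀ s', c' s' = ∑ s : Fin (p + 1) → Ω, C (∏ r, K (s' r) (s r)) * φ (c s))
    (hc : c ∈ Cyc J p) : c' ∈ Cyc J' p := by
  classical
  obtain ⟨h1, h2⟩ := hc
  refine ⟨fun σ s' => ?_, fun s' => ?_⟩
  · have e1 : c' (fun i => s' (σ i)) =
        ∑ s : Fin (p + 1) → Ω, C (∏ r, K (s' r) (s r)) * φ (c fun i => s (σ i)) := by
      rw [hc']
      refine (Fintype.sum_equiv (σ.symm.arrowCongr (Equiv.refl Ω)) _ _ fun s => ?_).symm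
      have : ((σ.symm.arrowCongr (Equiv.refl Ω)) s : Fin (p + 1) → Ω) = fun i => s (σ i) := by
        funext i; rfl
      rw [this]
      congr 2
      exact (Fintype.prod_equiv σ _ _ fun r => rfl).symm
    have e2 : c' (fun i => s' (σ i)) - ((Equiv.Perm.sign σ : ℤ) : MvPolynomial Ω' ℂ) * c' s' =
        ∑ s : Fin (p + 1) → Ω, C (∏ r, K (s' r) (s r)) *
          φ (c (fun i => s (σ i)) - ((Equiv.Perm.sign σ : ℤ) : MvPolynomial Ω ℂ) * c s) := by
      rw [e1, hc', Finset.mul_sum, ← Finset.sum_sub_distrib]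
      refine Finset.sum_congr rfl fun s _ => ?_
      rw [map_sub, map_mul, map_intCast]
      ring
    rw [e2]
    exact J'.sum_mem fun s _ => J'.mul_mem_left _ (hJ _ (h1 σ s))
  · have e3 : bd c' s' = ∑ t : Fin p → Ω, C (∏ r, K (s' r) (t r)) * φ (bd c t) := by
      rw [bd, finsum_eq_sum_of_fintype]
      have e4 : ∀ β : Ω', X β * c' (Fin.cons β s') =
          ∑ q : Ω × (Fin p → Ω), X β * (C (K β q.1) * (C (∏ r, K (s' r) (q.2 r)) *
            φ (c (Fin.cons q.1 q.2)))) := by
        intro β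
        rw [hc', Finset.mul_sum]
        refine (Fintype.sum_equiv (Fin.consEquiv fun _ => Ω) _ _ fun q => ?_).symm
        have : (Fin.consEquiv fun _ => Ω) q = (Fin.cons q.1 q.2 : Fin (p + 1) → Ω) := rfl
        rw [this, Fin.prod_univ_succ]
        simp only [Fin.cons_zero, Fin.cons_succ, map_mul]
        ring
      simp_rw [e4]
      rw [Finset.sum_comm, Fintype.sum_prod_type, Finset.sum_comm]
      refine Finset.sum_congr rfl fun t _ => ?_
      rw [bd, finsum_eq_sum_of_fintype, map_sum, Finset.mul_sum]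
      refine Finset.sum_congr rfl fun α _ => ?_
      rw [map_mul, hφ, Finset.sum_mul, Finset.mul_sum]
      refine Finset.sum_congr rfl fun β _ => ?_
      ring
    rw [e3]
    exact J'.sum_mem fun t _ => J'.mul_mem_left _ (hJ _ (h2 t))

/-- copies of factors -/
theorem merge_fin' (I : DI.DeltaIdeal) (n n' m : ℕ) (s : Fin (n' + 1) → Fin (n + 1))
    (hs : Function.Surjective s) (f : MvPolynomial (Fin (n + 1) → Fin m) ℂ)
    (hf : f ∈ I.ideal (Fin (n + 1)) (fun _ => Fin m)) :
    rename (fun α j => α (s j)) f ∈ I.ideal (Fin (n' + 1)) (fun _ => Fin m) := by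
  classical
  let W : Fin (n + 1) → Type := fun j => ∀ i : {i : Fin (n' + 1) // s i = j}, (fun _ => Fin m) i.1
  let A : ∀ j : Fin (n + 1), W j → Fin m → ℂ := fun j c' c => if c' = (fun _ => c) then 1 else 0
  have h1 := I.linear (Fin (n + 1)) (fun _ => Fin m) W A f hf
  have h2 := I.merge (Fin (n' + 1)) (Fin (n + 1)) s hs (fun _ => Fin m) _ h1
  have h3 : ∀ g : MvPolynomial (Fin (n + 1) → Fin m) ℂ,
      rename (fun (β : ∀ j, W j) (i : Fin (n' + 1)) => β (s i) ⟨i, rfl⟩)
        (DI.lmap (V := fun _ => Fin m) (V' := W) A g) =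
      rename (fun α j => α (s j)) g := by
    intro g
    have h4 : ((rename (fun (β : ∀ j, W j) (i : Fin (n' + 1)) => β (s i) ⟨i, rfl⟩) :
        MvPolynomial (∀ j, W j) ℂ →ₐ[ℂ] MvPolynomial (Fin (n' + 1) → Fin m) ℂ).comp
        (DI.lmap (V := fun _ => Fin m) (V' := W) A)) =
        (rename (fun (α : Fin (n + 1) → Fin m) (j : Fin (n' + 1)) => α (s j)) :
          MvPolynomial (Fin (n + 1) → Fin m) ℂ →ₐ[ℂ] MvPolynomial (Fin (n' + 1) → Fin m) ℂ) := by
      refine MvPolynomial.algHom_ext fun α => ?_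
      rw [AlgHom.comp_apply, rename_X, DI.lmap, aeval_X]
      have h5 : (fun β : (∀ j, W j) => (C (∏ᶠ j, A j (β j) (α j)) * X β :
          MvPolynomial (∀ j, W j) ℂ)) =
          fun β => if β = (fun j _ => α j) then X β else 0 := by
        funext β
        rw [finprod_eq_prod_of_fintype]
        by_cases hβ : β = fun j _ => α j
        · rw [if_pos hβ]
          have : ∏ j, A j (β j) (α j) = 1 := by
            refine Finset.prod_eq_one fun j _ => ?_
            simp only [A, hβ, if_true]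
          rw [this, C_1, one_mul]
        · rw [if_neg hβ]
          obtain ⟨j, hj⟩ : ∃ j, β j ≠ fun _ => α j := by
            by_contra hcon
            push Not at hcon
            exact hβ (funext hcon)
          have : ∏ j, A j (β j) (α j) = 0 :=
            Finset.prod_eq_zero (Finset.mem_univ j) (by simp only [A, if_neg hj])
          rw [this, C_0, zero_mul]
      rw [h5, finsum_eq_single _ (fun j _ => α j) (fun β hβ => if_neg hβ), if_pos rfl, rename_X]
    exact DFunLike.congr_fun h4 g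
  rw [← h3]
  exact h2

end

end Pool.Agent.Helper76.DS

namespace Pool.Agent.Helper77.DS

open MvPolynomial

noncomputable section

/-- DS-11b -/
theorem cyc_lin (I : DI.DeltaIdeal) (p n m m' : ℕ) (A : Fin (n + 1) → Fin m' → Fin m → ℂ)
    (c : (Fin (p + 1) → Fin (n + 1) → Fin m) → MvPolynomial (Fin (n + 1) → Fin m) ℂ)
    (hc : c ∈ Cyc (I.ideal (Fin (n + 1)) (fun _ => Fin m)) p) :
    pact A c ∈ Cyc (I.ideal (Fin (n + 1)) (fun _ => Fin m')) p := by
  refine Pool.Agent.Helper76.DS.cyc_map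
    (DI.lmap (V := fun _ => Fin m) (V' := fun _ => Fin m') A)
    (fun β α => ∏ i, A i (β i) (α i)) (fun α => ?_) _ _
    (fun f hf => I.linear (Fin (n + 1)) (fun _ => Fin m) (fun _ => Fin m') A f hf) c _
    (fun s' => by rw [pact]) hc
  rw [DI.lmap, aeval_X, finsum_eq_sum_of_fintype]
  refine Finset.sum_congr rfl fun β _ => ?_
  rw [finprod_eq_prod_of_fintype]

/-- DS-11b -/
theorem cyc_col (I : DI.DeltaIdeal) (p n n' m : ℕ) (s : Fin (n' + 1) → Fin (n + 1))
    (hs : Function.Surjective s)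
    (c : (Fin (p + 1) → Fin (n + 1) → Fin m) → MvPolynomial (Fin (n + 1) → Fin m) ℂ)
    (hc : c ∈ Cyc (I.ideal (Fin (n + 1)) (fun _ => Fin m)) p) :
    pcol s c ∈ Cyc (I.ideal (Fin (n' + 1)) (fun _ => Fin m)) p := by
  classical
  have hJ := Pool.Agent.Helper76.DS.merge_fin' I n n' m s hs
  refine Pool.Agent.Helper76.DS.cyc_map
    (rename (fun (α : Fin (n + 1) → Fin m) (j : Fin (n' + 1)) => α (s j)))
    (fun β α => if (fun j => α (s j)) = β then 1 else 0) (fun α => ?_)
    (I.ideal (Fin (n + 1)) (fun _ => Fin m)) (I.ideal (Fin (n' + 1)) (fun _ => Fin m))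
    hJ c (pcol s c) (fun t' => ?_) hc
  · rw [rename_X, Finset.sum_eq_single (fun j => α (s j))]
    · simp
    · intro β _ hβ
      rw [if_neg (fun h => hβ h.symm), C_0, zero_mul]
    · intro h; exact absurd (Finset.mem_univ _) h
  · rw [pcol]
    refine Finset.sum_congr (by ext x; simp) fun t _ => ?_
    by_cases h : (fun r j => t r (s j)) = t'
    · have h1 : ∏ r, (if (fun j => t r (s j)) = t' r then (1 : ℂ) else 0) = 1 :=
        Finset.prod_eq_one fun r _ => if_pos (congrFun h r)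
      rw [if_pos h, h1, C_1, one_mul]
    · obtain ⟨r, hr⟩ : ∃ r, (fun j => t r (s j)) ≠ t' r := by
        by_contra hcon
        push Not at hcon
        exact h (funext hcon)
      have h1 : ∏ r, (if (fun j => t r (s j)) = t' r then (1 : ℂ) else 0) = 0 :=
        Finset.prod_eq_zero (Finset.mem_univ r) (if_neg hr)
      rw [if_neg h, h1, C_0, zero_mul]

end

end Pool.Agent.Helper77.DS
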