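import Pool.Agent.Helper91.DS.Transport

/-!
DS-12c for MP_b07a0a: vanishing of Koszul homology is transported along an injection of variables.
-/

namespace Pool.Agent.Helper77.DS

open MvPolynomial Pool.Agent.Helper77

noncomputable section

variable {Ω Ω' : Type}

theorem back_X_of_mem {ε : Ω → Ω'} (hε : Function.Injective ε) (x : Ω) :
    back ε (X (ε x)) = X x := by
  classical
  unfold back
  rw [aeval_X]
  have h : ∃ y, ε y = ε x := ⟨x, rfl⟩
  rw [dif_pos h]
  exact congrArg X (hε h.choose_spec)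

theorem back_X_of_notMem {ε : Ω → Ω'} {y : Ω'} (h : ¬ ∃ x, ε x = y) :
    back ε (X y) = 0 := by
  classical
  unfold back
  rw [aeval_X, dif_neg h]

theorem back_rename {ε : Ω → Ω'} (hε : Function.Injective ε) (f : MvPolynomial Ω ℂ) :
    back ε (rename ε f) = f := by
  have h : ((back ε).comp (rename ε)) = AlgHom.id ℂ (MvPolynomial Ω ℂ) := by
    apply MvPolynomial.algHom_ext
    intro x
    rw [AlgHom.comp_apply, rename_X, back_X_of_mem hε, AlgHom.id_apply]
  exact congrArg (fun g : MvPolynomial Ω ℂ →ₐ[ℂ] MvPolynomial Ω ℂ => g f) h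

open Classical in
/-- extension by zero -/
def push {m : ℕ} (ε : Ω → Ω') (c : (Fin m → Ω) → MvPolynomial Ω ℂ) :
    (Fin m → Ω') → MvPolynomial Ω' ℂ :=
  fun s' => if h : ∃ s : Fin m → Ω, (fun i => ε (s i)) = s' then rename ε (c h.choose) else 0

theorem push_of_mem {m : ℕ} {ε : Ω → Ω'} (hε : Function.Injective ε)
    (c : (Fin m → Ω) → MvPolynomial Ω ℂ) (s : Fin m → Ω) :
    push ε c (fun i => ε (s i)) = rename ε (c s) := by
  classical
  unfold push
  have h : ∃ s₁ : Fin m → Ω, (fun i => ε (s₁ i)) = fun i => ε (s i) := ⟨s, rfl⟩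
  rw [dif_pos h]
  have h2 : h.choose = s := by
    funext i
    exact hε (congrFun h.choose_spec i)
  rw [h2]

theorem push_of_notMem {m : ℕ} {ε : Ω → Ω'}
    (c : (Fin m → Ω) → MvPolynomial Ω ℂ) {s' : Fin m → Ω'}
    (h : ¬ ∃ s : Fin m → Ω, (fun i => ε (s i)) = s') : push ε c s' = 0 := by
  classical
  unfold push
  rw [dif_neg h]

theorem push_alt {m : ℕ} {ε : Ω → Ω'} (hε : Function.Injective ε)
    {c : (Fin m → Ω) → MvPolynomial Ω ℂ} (hc : Alt c) : Alt (push ε c) := by
  intro σ s'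
  by_cases h : ∃ s : Fin m → Ω, (fun i => ε (s i)) = s'
  · obtain ⟨s, rfl⟩ := h
    rw [push_of_mem hε c s]
    have h1 := push_of_mem hε c (fun i => s (σ i))
    rw [h1, hc σ s, map_mul, map_intCast]
  · have h' : ¬ ∃ s : Fin m → Ω, (fun i => ε (s i)) = fun i => s' (σ i) := by
      rintro ⟨s, hs⟩
      apply h
      refine ⟨fun i => s (σ.symm i), ?_⟩
      funext i
      have := congrFun hs (σ.symm i)
      simpa using this
    rw [push_of_notMem c h, push_of_notMem c h', mul_zero]

theorem push_bd {p : ℕ} {ε : Ω → Ω'} [Finite Ω] [Finite Ω'] (hε : Function.Injective ε)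
    (c : (Fin (p + 1) → Ω) → MvPolynomial Ω ℂ) (s : Fin p → Ω) :
    bd (push ε c) (fun i => ε (s i)) = rename ε (bd c s) := by
  classical
  have : Fintype Ω := Fintype.ofFinite Ω
  have : Fintype Ω' := Fintype.ofFinite Ω'
  unfold bd
  rw [finsum_eq_sum_of_fintype, finsum_eq_sum_of_fintype, map_sum]
  have h1 : ∀ α : Ω, rename ε (X α * c (Fin.cons α s)) =
      X (ε α) * push ε c (Fin.cons (ε α) (fun i => ε (s i))) := by
    intro α
    rw [map_mul, rename_X]
    congr 1
    have h2 : (Fin.cons (ε α) (fun i => ε (s i)) : Fin (p + 1) → Ω') =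
        fun i => ε ((Fin.cons α s : Fin (p + 1) → Ω) i) := by
      funext i
      refine Fin.cases ?_ (fun j => ?_) i
      · simp
      · simp
    rw [h2, push_of_mem hε]
  rw [Finset.sum_congr rfl (fun α _ => h1 α)]
  symm
  rw [← Finset.sum_image (s := Finset.univ) (g := ε)
    (f := fun β => X β * push ε c (Fin.cons β (fun i => ε (s i))))
    (by intro a _ b _ h; exact hε h)]
  apply Finset.sum_subset (Finset.subset_univ _)
  intro β _ hβ
  have h3 : ¬ ∃ t : Fin (p + 1) → Ω, (fun i => ε (t i)) =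
      (Fin.cons β (fun i => ε (s i)) : Fin (p + 1) → Ω') := by
    rintro ⟨t, ht⟩
    apply hβ
    have := congrFun ht 0
    simp only [Fin.cons_zero] at this
    rw [← this]
    exact Finset.mem_image_of_mem _ (Finset.mem_univ _)
  rw [push_of_notMem c h3, mul_zero]

theorem push_bd_notMem {p : ℕ} {ε : Ω → Ω'} [Finite Ω']
    (c : (Fin (p + 1) → Ω) → MvPolynomial Ω ℂ) {s' : Fin p → Ω'}
    (h : ¬ ∃ s : Fin p → Ω, (fun i => ε (s i)) = s') :
    bd (push ε c) s' = 0 := by
  unfold bd
  rw [finsum_eq_zero_of_forall_eq_zero]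
  intro β
  have h3 : ¬ ∃ t : Fin (p + 1) → Ω, (fun i => ε (t i)) =
      (Fin.cons β s' : Fin (p + 1) → Ω') := by
    rintro ⟨t, ht⟩
    apply h
    refine ⟨fun i => t i.succ, ?_⟩
    funext i
    have := congrFun ht i.succ
    simpa using this
  rw [push_of_notMem c h3, mul_zero]

theorem back_bd {p : ℕ} {ε : Ω → Ω'} [Finite Ω] [Finite Ω'] (hε : Function.Injective ε)
    (b : (Fin (p + 1) → Ω') → MvPolynomial Ω' ℂ) (s : Fin p → Ω) :
    back ε (bd b (fun i => ε (s i))) = bd (fun t => back ε (b (fun i => ε (t i)))) s := by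
  classical
  have : Fintype Ω := Fintype.ofFinite Ω
  have : Fintype Ω' := Fintype.ofFinite Ω'
  unfold bd
  rw [finsum_eq_sum_of_fintype, finsum_eq_sum_of_fintype, map_sum]
  have h1 : ∀ α : Ω, (X α * back ε (b (fun i => ε ((Fin.cons α s : Fin (p + 1) → Ω) i))) :
      MvPolynomial Ω ℂ) =
      back ε (X (ε α) * b (Fin.cons (ε α) (fun i => ε (s i)))) := by
    intro α
    rw [map_mul, back_X_of_mem hε]
    congr 3
    funext i
    refine Fin.cases ?_ (fun j => ?_) i
    · simp
    · simp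
  rw [Finset.sum_congr rfl (fun α _ => h1 α)]
  symm
  rw [← Finset.sum_image (s := Finset.univ) (g := ε)
    (f := fun β => back ε (X β * b (Fin.cons β (fun i => ε (s i)))))
    (by intro a _ b _ h; exact hε h)]
  apply Finset.sum_subset (Finset.subset_univ _)
  intro β _ hβ
  have h3 : ¬ ∃ x, ε x = β := by
    rintro ⟨x, rfl⟩
    exact hβ (Finset.mem_image_of_mem _ (Finset.mem_univ _))
  rw [map_mul, back_X_of_notMem h3, zero_mul]

/-- DS-12c -/
theorem kos_transport {Ω Ω' : Type} [Finite Ω] [Finite Ω'] (ε : Ω → Ω')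
    (hε : Function.Injective ε) (J : Ideal (MvPolynomial Ω ℂ)) (J' : Ideal (MvPolynomial Ω' ℂ))
    (h1 : ∀ f ∈ J, rename ε f ∈ J') (h2 : ∀ f ∈ J', back ε f ∈ J) (p q : ℕ)
    (h : KosExact J' p q) : KosExact J p q := by
  intro c hc hq hbd
  have hq' : ∀ s', (push ε c s').IsHomogeneous q := by
    intro s'
    by_cases hs : ∃ s : Fin (p + 1) → Ω, (fun i => ε (s i)) = s'
    · obtain ⟨s, rfl⟩ := hs
      rw [push_of_mem hε]
      exact (hq s).rename_isHomogeneous
    · rw [push_of_notMem c hs]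
      exact isHomogeneous_zero _ _ _
  have hbd' : ∀ s', bd (push ε c) s' ∈ J' := by
    intro s'
    by_cases hs : ∃ s : Fin p → Ω, (fun i => ε (s i)) = s'
    · obtain ⟨s, rfl⟩ := hs
      rw [push_bd hε]
      exact h1 _ (hbd s)
    · rw [push_bd_notMem c hs]
      exact J'.zero_mem
  obtain ⟨b, hb, hcb⟩ := h (push ε c) (push_alt hε hc) hq' hbd'
  refine ⟨fun t => back ε (b (fun i => ε (t i))), ?_, ?_⟩
  · intro σ s
    have := hb σ (fun i => ε (s i))
    simp only at this ⊢
    rw [this, map_mul, map_intCast]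
  · intro s
    have := h2 _ (hcb (fun i => ε (s i)))
    rwa [map_sub, push_of_mem hε, back_rename hε, back_bd hε] at this

end

end Pool.Agent.Helper77.DS
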