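import Pool.Agent.Helper77.DSR.Acc
import Pool.Agent.Helper77.DSR.KosTransport
import Pool.Agent.Helper2.DS.KosExact
import Pool.Agent.Helper50.DS.BaseFin
import Pool.Agent.Helper59.DS.Flat
import Pool.Agent.Helper77.DSR.T10a
import Pool.Agent.Helper65.DS.Pol
import Pool.Agent.Helper77.DSR.Cyc
import Pool.Agent.Helper83.DS.VanBase
import Pool.Agent.Helper88.DS.FlatPow
import Pool.Agent.Helper91.DS.Transport

/-!
Delta-schemes supported on the Segre varieties (MP_b07a0a): assembly.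
-/

namespace Pool.Agent.Helper77.DS

open MvPolynomial

noncomputable section

section

variable {p q : ℕ} {Ω : Type}

/-- `pol` as a linear map. -/
def polL [Fintype Ω] :
    ((Fin (p + q) → Ω) → ℂ) →ₗ[ℂ] ((Fin p → Ω) → MvPolynomial Ω ℂ) where
  toFun f := pol f
  map_add' f g := by
    ext1 s
    simp only [pol, Pi.add_apply, C_add, add_mul, Finset.sum_add_distrib]
  map_smul' a f := by
    ext1 s
    simp only [pol, Pi.smul_apply, smul_eq_mul, C_mul, RingHom.id_apply,
      MvPolynomial.smul_eq_C_mul, Finset.mul_sum, mul_assoc]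

end

/-- Tables for families of submodules. -/
def PMod.toCMod {p M : ℕ} (c : PMod p M) : CMod p (M + p) where
  sub n m q := (c.S n m).comap (polL (p := p) (q := q))
  lin n m m' q A f hf := by
    rw [Submodule.mem_comap] at hf ⊢
    change pol (tact A f) ∈ _
    rw [pol_tact]
    exact c.lin _ _ _ A _ hf
  col n n' m q s hs f hf := by
    rw [Submodule.mem_comap] at hf ⊢
    change pol (colmap s f) ∈ _
    rw [pol_colmap s hs]
    exact c.col _ _ _ s hs _ hf
  row n m q w f hf := by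
    rw [Submodule.mem_comap] at hf ⊢
    change pol (p := p) (q := q + 1) (addRow w f) ∈ _
    rw [pol_addRow]
    exact c.mul _ _ _ hf w
  van n m q g hg := by
    apply van_of_base
    intro f hf
    apply hg
    rw [Submodule.mem_comap]
    exact c.base _ _ _ hf
  sym n m q g hg σ hσ t := by
    refine sym_of_pol g (fun f hf => ?_) σ hσ t
    apply hg
    rw [Submodule.mem_comap]
    change pol f ∈ _
    rw [hf]
    exact Submodule.zero_mem _

theorem PMod.acc {p M : ℕ} (c : ℕ → PMod p M) (hc : ∀ k n m, (c k).S n m ≤ (c (k + 1)).S n m) :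
    ∃ N, ∀ k ≥ N, ∀ n m q, ∀ x ∈ (c k).S n m, (∀ s, (x s).IsHomogeneous q) →
      x ∈ (c N).S n m := by
  obtain ⟨N, hN⟩ := CMod.acc (fun k => (c k).toCMod) (by
    intro k n m q
    exact Submodule.comap_mono (hc k n m))
  refine ⟨N, fun k hk n m q x hx hq => ?_⟩
  obtain ⟨f, rfl⟩ := pol_surj x hq
  have h1 : f ∈ (c k).toCMod.sub n m q := hx
  rw [hN k hk n m q] at h1
  exact h1

/-! ## Chains of Delta-ideals -/

section

variable {p : ℕ} {Ω : Type}

/-- functions with values in an ideal -/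
def vals (p : ℕ) (J : Ideal (MvPolynomial Ω ℂ)) :
    Submodule ℂ ((Fin p → Ω) → MvPolynomial Ω ℂ) where
  carrier := {c | ∀ s, c s ∈ J}
  zero_mem' := fun _ => J.zero_mem
  add_mem' := fun h h' s => J.add_mem (h s) (h' s)
  smul_mem' := fun a c h s => by
    simp only [Pi.smul_apply, MvPolynomial.smul_eq_C_mul]
    exact J.mul_mem_left _ (h s)

theorem mem_vals {J : Ideal (MvPolynomial Ω ℂ)} {c : (Fin p → Ω) → MvPolynomial Ω ℂ} :
    c ∈ vals p J ↔ ∀ s, c s ∈ J := Iff.rfl

theorem back_renameA {Ω' : Type} (ε : Ω → Ω') (hε : Function.Injective ε)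
    (f : MvPolynomial Ω ℂ) : back ε (rename ε f) = f := by
  classical
  rw [back, aeval_rename]
  conv_rhs => rw [← MvPolynomial.aeval_X_left_apply f]
  congr 2
  funext x
  have h : ∃ y, ε y = ε x := ⟨x, rfl⟩
  simp only [Function.comp_apply, dif_pos h]
  rw [hε h.choose_spec]

end

theorem pact_vals (I : DI.DeltaIdeal) (p n m m' : ℕ) (A : Fin (n + 1) → Fin m' → Fin m → ℂ)
    (c : (Fin p → Fin (n + 1) → Fin m) → MvPolynomial (Fin (n + 1) → Fin m) ℂ)
    (hc : c ∈ vals p (I.ideal (Fin (n + 1)) (fun _ => Fin m))) :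
    pact A c ∈ vals p (I.ideal (Fin (n + 1)) (fun _ => Fin m')) := by
  intro s
  refine Submodule.sum_mem _ fun t _ => Ideal.mul_mem_left _ _ ?_
  exact I.linear (Fin (n + 1)) (fun _ => Fin m) (fun _ => Fin m') A (c t) (hc t)

theorem pcol_vals (I : DI.DeltaIdeal) (p n n' m : ℕ) (s : Fin (n' + 1) → Fin (n + 1))
    (hs : Function.Surjective s)
    (c : (Fin p → Fin (n + 1) → Fin m) → MvPolynomial (Fin (n + 1) → Fin m) ℂ)
    (hc : c ∈ vals p (I.ideal (Fin (n + 1)) (fun _ => Fin m))) :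
    pcol s c ∈ vals p (I.ideal (Fin (n' + 1)) (fun _ => Fin m)) := by
  intro t'
  refine Submodule.sum_mem _ fun t _ => ?_
  split_ifs
  · exact merge_fin I n n' m s hs (c t) (hc t)
  · exact Submodule.zero_mem _

/-- The families of submodules given by a Delta-ideal. -/
def ofIdeal (I : DI.DeltaIdeal) (p M : ℕ)
    (hI : ∀ n m : ℕ, segI (Fin (n + 1)) (Fin m) ^ M ≤ I.ideal (Fin (n + 1)) (fun _ => Fin m)) :
    PMod p M where
  S n m := vals p (I.ideal (Fin (n + 1)) (fun _ => Fin m))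
  mul n m c hc α := fun s => Ideal.mul_mem_left _ _ (hc s)
  lin n m m' A c hc := pact_vals I p n m m' A c hc
  col n n' m s hs c hc := pcol_vals I p n n' m s hs c hc
  base n m c hc := fun s => hI n m (hc s)

theorem mem_of_comp (I : DI.DeltaIdeal) (n m : ℕ) (f : MvPolynomial (Fin (n + 1) → Fin m) ℂ)
    (h : ∀ k, homogeneousComponent k f ∈ I.ideal (Fin (n + 1)) (fun _ => Fin m)) :
    f ∈ I.ideal (Fin (n + 1)) (fun _ => Fin m) := by
  rw [← sum_homogeneousComponent f]
  exact Submodule.sum_mem _ fun k _ => h k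

theorem acc_ideals (M : ℕ) (I : ℕ → DI.DeltaIdeal) (hI : ∀ k, (I k).le (I (k + 1)))
    (h0 : ∀ k, ∀ n m : ℕ,
      segI (Fin (n + 1)) (Fin m) ^ M ≤ (I k).ideal (Fin (n + 1)) (fun _ => Fin m)) :
    ∃ N, ∀ k ≥ N, (I k).le (I N) := by
  obtain ⟨N, hN⟩ := PMod.acc (p := 0) (fun k => ofIdeal (I k) 0 M (h0 k)) (by
    intro k n m c hc s
    exact hI k _ _ (hc s))
  refine ⟨N, fun k hk ι _ _ V _ f hf => ?_⟩
  obtain ⟨n, m, ε, hε, hI'⟩ := transport ι V
  rw [← back_renameA ε hε f]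
  apply (hI' (I N)).2
  have h1 := (hI' (I k)).1 f hf
  apply mem_of_comp
  intro q
  have h2 := (I k).homog _ _ _ q h1
  have h3 := hN k hk n m q (fun _ => homogeneousComponent q (rename ε f)) (fun _ => h2)
    (fun _ => homogeneousComponent_isHomogeneous _ _)
  exact h3 Fin.elim0

/-! ## Finite generation -/

/-- Intersection of a family of Delta-ideals. -/
def interI (P : DI.DeltaIdeal → Prop) : DI.DeltaIdeal where
  ideal := fun ι _ _ V _ => ⨅ J : {J : DI.DeltaIdeal // P J}, J.1.ideal ι V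
  homog := by
    intro ι _ _ V _ f k hf
    rw [Submodule.mem_iInf] at hf ⊢
    exact fun J => J.1.homog ι V f k (hf J)
  linear := by
    intro ι _ _ V V' _ _ A f hf
    rw [Submodule.mem_iInf] at hf ⊢
    exact fun J => J.1.linear ι V V' A f (hf J)
  merge := by
    intro ι κ _ _ _ _ π hπ V _ f hf
    rw [Submodule.mem_iInf] at hf ⊢
    exact fun J => J.1.merge ι κ π hπ V f (hf J)

theorem mem_interI (P : DI.DeltaIdeal → Prop) (x : DI.Elt) :
    (interI P).Mem x ↔ ∀ J : DI.DeltaIdeal, P J → J.Mem x := by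
  simp only [DI.DeltaIdeal.Mem, interI, Submodule.mem_iInf]
  exact ⟨fun h J hJ => h ⟨J, hJ⟩, fun h J => h J.1 J.2⟩

theorem le_iff_mem (I J : DI.DeltaIdeal) : I.le J ↔ ∀ x : DI.Elt, I.Mem x → J.Mem x := by
  constructor
  · intro h x hx
    have := x.finι
    have := x.neι
    have := x.finV
    exact h x.ι x.V hx
  · intro h ι _ _ V _ f hf
    exact h ⟨ι, V, ‹_›, ‹_›, ‹_›, f⟩ hf

/-- The Delta-ideal generated by `S`. -/
def genI (S : List DI.Elt) : DI.DeltaIdeal :=
  interI fun J => ∀ x ∈ S, J.Mem x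

theorem fg_of_base (M : ℕ) (I : DI.DeltaIdeal)
    (hI : ∀ n m : ℕ, segI (Fin (n + 1)) (Fin m) ^ M ≤ I.ideal (Fin (n + 1)) (fun _ => Fin m)) :
    ∃ S : List DI.Elt, (∀ x ∈ S, I.Mem x) ∧
      ∀ J : DI.DeltaIdeal, (∀ x ∈ S, J.Mem x) → I.le J := by
  obtain ⟨S0, hS0, hS0'⟩ := base_fin M
  have hS0I := hS0 I hI
  by_contra hcon
  push Not at hcon
  have h1 : ∀ S : {S : List DI.Elt // ∀ x ∈ S, I.Mem x},
      ∃ x : DI.Elt, I.Mem x ∧ ¬ (genI S.1).Mem x := by
    rintro ⟨S, hS⟩
    obtain ⟨J, hJ1, hJ3⟩ := hcon S hS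
    rw [le_iff_mem] at hJ3
    push Not at hJ3
    obtain ⟨x, hx1, hx2⟩ := hJ3
    refine ⟨x, hx1, fun hx3 => hx2 ?_⟩
    rw [genI, mem_interI] at hx3
    exact hx3 J hJ1
  choose g hg1 hg2 using h1
  let nxt : {S : List DI.Elt // ∀ x ∈ S, I.Mem x} → {S : List DI.Elt // ∀ x ∈ S, I.Mem x} :=
    fun S => ⟨g S :: S.1, by
      intro x hx
      rcases List.mem_cons.mp hx with hx | hx
      · rw [hx]
        exact hg1 S
      · exact S.2 x hx⟩
  let c : ℕ → {S : List DI.Elt // ∀ x ∈ S, I.Mem x} := fun t =>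
    Nat.rec ⟨S0, hS0I⟩ (fun _ S => nxt S) t
  have hc : ∀ t, (c (t + 1)).1 = g (c t) :: (c t).1 := fun t => rfl
  have hS0c : ∀ t, ∀ x ∈ S0, x ∈ (c t).1 := by
    intro t
    induction t with
    | zero => exact fun x hx => hx
    | succ t ih =>
      intro x hx
      rw [hc]
      exact List.mem_cons_of_mem _ (ih x hx)
  obtain ⟨N, hN⟩ := acc_ideals M (fun t => genI (c t).1) (by
    intro n
    rw [le_iff_mem]
    intro x hx
    rw [genI, mem_interI] at hx ⊢
    intro J hJ
    apply hx J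
    refine fun y hy => hJ y ?_
    rw [hc]
    exact List.mem_cons_of_mem _ hy) (by
    intro k
    apply hS0' (genI (c k).1)
    intro x hx
    rw [genI, mem_interI]
    exact fun J hJ => hJ x (hS0c k x hx))
  apply hg2 (c N)
  have h2 := hN (N + 1) (Nat.le_succ N)
  rw [le_iff_mem] at h2
  apply h2
  rw [genI, mem_interI]
  intro J hJ
  apply hJ
  rw [hc]
  exact List.mem_cons_self

end

end Pool.Agent.Helper77.DS
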