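import Pool.Agent.Helper77.DS.Col

/-! DS-2 for MP_b07a0a: vanishing from pairs of rows. -/

namespace Pool.Agent.Helper77.DS

theorem pairs_vanish {R E Y : Type} [Fintype R] [DecidableEq R] [DecidableEq E] [AddCommGroup Y]
    [Module ℂ Y] (M : ℕ) (F : (R → E) → Y) (U : Finset R) (hF : VanC M U F)
    (a b : Fin M → E) (r : Fin M → R) (u : R → E) (hu : ∀ s, u (r s) = b s)
    (hr : ∀ s, r s ∉ U) (hU : ∀ s, ∀ x ∈ U, u x ≠ a s)
    (hab : Function.Injective (Sum.elim a b))
    (H : ∀ s, ∀ u' : R → E, (∀ x ∈ U, u' x ≠ a s) → u' (r s) = b s →
      ∑ ρ ∈ Finset.univ.filter (fun ρ => u' ρ = a s), F (fun x => u' (Equiv.swap ρ (r s) x)) =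
        - F u') : F u = 0 := by
  induction M generalizing F U with
  | zero => exact hF u
  | succ M ih =>
    have haa : ∀ s t, s ≠ t → a s ≠ a t := fun s t hst h => hst (by
      have := @hab (Sum.inl s) (Sum.inl t) h
      simpa using this)
    have hbb : ∀ s t, s ≠ t → b s ≠ b t := fun s t hst h => hst (by
      have := @hab (Sum.inr s) (Sum.inr t) h
      simpa using this)
    have hba : ∀ s t, b s ≠ a t := fun s t h => by
      have := @hab (Sum.inr s) (Sum.inl t) h
      simp at this
    have key : ∀ ρ, u ρ = a 0 → F (fun x => u (Equiv.swap ρ (r 0) x)) = F u := by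
      intro ρ hρ
      have hρU : ρ ∉ U := fun h => hU 0 ρ h hρ
      have hρr : ρ ≠ r 0 := fun h => by
        rw [h, hu] at hρ
        exact hba 0 0 hρ
      have hG := hF ρ (r 0) hρU (hr 0) hρr
      have hrs : ∀ s : Fin M, r s.succ ≠ ρ ∧ r s.succ ≠ r 0 := by
        intro s
        constructor
        · intro h
          rw [← h, hu] at hρ
          exact hba _ _ hρ
        · intro h
          have h1 := hu s.succ
          rw [h, hu] at h1
          exact hbb _ _ (Fin.succ_ne_zero s).symm h1
      have hres := ih (fun u' => F u' - F (fun x => u' (Equiv.swap ρ (r 0) x)))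
        (insert ρ (insert (r 0) U)) hG (fun s => a s.succ) (fun s => b s.succ)
        (fun s => r s.succ) (fun s => hu _) (by
          intro s h
          simp only [Finset.mem_insert] at h
          rcases h with h | h | h
          · exact (hrs s).1 h
          · exact (hrs s).2 h
          · exact hr _ h) (by
          intro s x hx
          simp only [Finset.mem_insert] at hx
          rcases hx with rfl | rfl | hx
          · rw [hρ]
            exact haa _ _ (Fin.succ_ne_zero s).symm
          · rw [hu]
            exact hba _ _
          · exact hU _ _ hx) (by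
          intro x y h
          cases x with
          | inl x => cases y with
            | inl y =>
              by_contra hne
              exact haa x.succ y.succ (fun h' => hne (by rw [Fin.succ_injective _ h'])) h
            | inr y => exact absurd h.symm (hba _ _)
          | inr x => cases y with
            | inl y => exact absurd h (hba _ _)
            | inr y =>
              by_contra hne
              exact hbb x.succ y.succ (fun h' => hne (by rw [Fin.succ_injective _ h'])) h) (by
          intro s u' hu' hb'
          have hρ' : u' ρ ≠ a s.succ := hu' ρ (by simp)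
          have hr0' : u' (r 0) ≠ a s.succ := hu' (r 0) (by simp)
          have hUU : ∀ x ∈ U, u' x ≠ a s.succ := fun x hx => hu' x (by simp [hx])
          have hfix : ∀ x ∈ U, Equiv.swap ρ (r 0) x = x := fun x hx =>
            Equiv.swap_apply_of_ne_of_ne (fun h => hρU (h ▸ hx)) (fun h => hr 0 (h ▸ hx))
          have h1 := H s.succ u' hUU hb'
          have h2 := H s.succ (fun x => u' (Equiv.swap ρ (r 0) x)) (by
            intro x hx
            rw [hfix x hx]
            exact hUU x hx) (by
            rw [Equiv.swap_apply_of_ne_of_ne (hrs s).1 (hrs s).2]
            exact hb')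
          have hfilt : (Finset.univ.filter fun ρ' => u' (Equiv.swap ρ (r 0) ρ') = a s.succ) =
              Finset.univ.filter fun ρ' => u' ρ' = a s.succ := by
            ext x
            simp only [Finset.mem_filter, Finset.mem_univ, true_and]
            by_cases hx1 : x = ρ
            · subst hx1
              rw [Equiv.swap_apply_left]
              exact iff_of_false hr0' hρ'
            · by_cases hx2 : x = r 0
              · rw [hx2, Equiv.swap_apply_right]
                exact iff_of_false hρ' hr0'
              · rw [Equiv.swap_apply_of_ne_of_ne hx1 hx2]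
          rw [hfilt] at h2
          dsimp only
          rw [Finset.sum_sub_distrib, h1]
          have h3 : ∑ ρ' ∈ Finset.univ.filter (fun ρ' => u' ρ' = a s.succ),
              F (fun x => u' (Equiv.swap ρ' (r s.succ) (Equiv.swap ρ (r 0) x))) =
              - F (fun x => u' (Equiv.swap ρ (r 0) x)) := by
            rw [← h2]
            refine Finset.sum_congr rfl fun ρ' hρ'' => ?_
            simp only [Finset.mem_filter, Finset.mem_univ, true_and] at hρ''
            have hn1 : ρ' ≠ ρ := fun h => hρ' (h ▸ hρ'')
            have hn2 : ρ' ≠ r 0 := fun h => hr0' (h ▸ hρ'')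
            congr 1
            funext x
            congr 1
            have hcomm : Commute (Equiv.swap ρ' (r s.succ)) (Equiv.swap ρ (r 0)) := by
              apply Equiv.Perm.Disjoint.commute
              rw [Equiv.Perm.disjoint_iff_disjoint_support]
              rw [Equiv.Perm.support_swap (fun h => by
                rw [h] at hρ''
                rw [hb'] at hρ''
                exact hba _ _ hρ''), Equiv.Perm.support_swap hρr]
              simp only [Finset.disjoint_insert_left, Finset.mem_insert, Finset.mem_singleton,
                Finset.disjoint_singleton_left, not_or]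
              exact ⟨⟨hn1, hn2⟩, (hrs s).1, (hrs s).2⟩
            have := congrArg (fun e : Equiv.Perm R => e x) hcomm.eq
            simpa using this
          rw [h3]
          abel)
      exact (sub_eq_zero.1 hres).symm
    have h0 := H 0 u (hU 0) (hu 0)
    rw [Finset.sum_congr rfl (fun ρ hρ => key ρ (by simpa using hρ)), Finset.sum_const] at h0
    have h1 : ((Finset.univ.filter (fun ρ => u ρ = a 0)).card + 1) • F u = 0 := by
      rw [add_smul, one_smul, h0]
      abel
    rw [← Nat.cast_smul_eq_nsmul ℂ, smul_eq_zero] at h1
    rcases h1 with h1 | h1
    · exfalso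
      rw [Nat.cast_add, Nat.cast_one] at h1
      exact Nat.cast_add_one_ne_zero _ h1
    · exact h1

end Pool.Agent.Helper77.DS
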