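import Pool.Agent.Helper77.DS.Col
import Pool.Agent.Helper7.DS.InjVanish

/-!
DS-3b: `hook_vanish` (a function of one column with a letter that occurs very often and some
letters that occur once).
-/

namespace Pool.Agent.Helper77.DS


noncomputable section

section diff

variable {R E ι : Type} [DecidableEq R] [DecidableEq ι]

/-- The iterated difference along pairwise disjoint pairs `P j, Q j`, `j ∈ T`, vanishes. -/
theorem vanC_sum (P Q : ι → R) (w : Finset ι → R → E) : ∀ (T : Finset ι) (U : Finset R)
    (F : (R → E) → ℂ), VanC T.card U F → (∀ j ∈ T, P j ∉ U ∧ Q j ∉ U) →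
    (∀ j ∈ T, P j ≠ Q j) →
    (∀ j ∈ T, ∀ j' ∈ T, j ≠ j' → P j ≠ P j' ∧ P j ≠ Q j' ∧ Q j ≠ Q j') →
    (∀ S ⊆ T, ∀ j ∈ T, j ∉ S → w (insert j S) = fun r => w S (Equiv.swap (P j) (Q j) r)) →
    ∑ S ∈ T.powerset, (-1 : ℂ) ^ S.card * F (w S) = 0 := by
  intro T
  induction T using Finset.induction_on with
  | empty =>
    intro U F hF _ _ _ _
    simp only [Finset.powerset_empty, Finset.sum_singleton, Finset.card_empty] at hF ⊢
    rw [show F (w ∅) = 0 from hF _, mul_zero]
  | insert j T hj ih =>
    intro U F hF hU hPQ hd hw
    rw [Finset.card_insert_of_notMem hj] at hF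
    have hjT : j ∈ insert j T := Finset.mem_insert_self _ _
    have hF' := hF (P j) (Q j) (hU j hjT).1 (hU j hjT).2 (hPQ j hjT)
    have h1 := ih _ _ hF' (fun j' hj' => by
        have hm : j' ∈ insert j T := Finset.mem_insert_of_mem hj'
        have hne : j ≠ j' := fun h => hj (h ▸ hj')
        obtain ⟨a1, a2, a3⟩ := hd j hjT j' hm hne
        obtain ⟨b1, b2, b3⟩ := hd j' hm j hjT hne.symm
        simp only [Finset.mem_insert, not_or]
        exact ⟨⟨b1, b2, (hU j' hm).1⟩, ⟨a2.symm, b3, (hU j' hm).2⟩⟩)
      (fun j' hj' => hPQ j' (Finset.mem_insert_of_mem hj'))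
      (fun j' hj' j'' hj'' => hd j' (Finset.mem_insert_of_mem hj') j''
        (Finset.mem_insert_of_mem hj''))
      (fun S hS j' hj' => hw S (hS.trans (Finset.subset_insert _ _)) j'
        (Finset.mem_insert_of_mem hj'))
    rw [Finset.sum_powerset_insert hj, ← Finset.sum_add_distrib]
    rw [← h1]
    refine Finset.sum_congr rfl fun S hS => ?_
    have hST : S ⊆ T := Finset.mem_powerset.1 hS
    have hjS : j ∉ S := fun h => hj (hST h)
    rw [Finset.card_insert_of_notMem hjS,
      hw S (hST.trans (Finset.subset_insert _ _)) j hjT hjS, pow_succ]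
    ring

end diff

section word

variable {R E : Type} [DecidableEq R] [DecidableEq E] {M : ℕ} (u : R → E) (v : E) (a : Fin M → E)

open Classical in
/-- all marked rows get the letter `v` -/
def base : R → E := fun r => if u r = v ∨ ∃ s, u r = a s then v else u r

/-- the rows of the letters `v` and `a s` -/
abbrev Zt : Type := {r : R // u r = v ∨ ∃ s, u r = a s}

/-- letter `a s` in row `κ s`, letter `v` in the other marked rows -/
def W (κ : Fin M → Zt u v a) : R → E := Function.extend (fun s => (κ s : R)) a (base u v a)

variable {u v a}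

theorem base_Z (x : Zt u v a) : base u v a x = v := by
  unfold base
  rw [if_pos x.2]

theorem base_not (r : R) (hr : ¬ (u r = v ∨ ∃ s, u r = a s)) : base u v a r = u r := by
  unfold base
  rw [if_neg hr]

theorem inj_coe {κ : Fin M → Zt u v a} (hκ : Function.Injective κ) :
    Function.Injective (fun s => (κ s : R)) := fun _ _ h => hκ (Subtype.ext h)

theorem W_apply {κ : Fin M → Zt u v a} (hκ : Function.Injective κ) (s : Fin M) :
    W u v a κ (κ s) = a s := (inj_coe hκ).extend_apply a (base u v a) s

theorem W_not {κ : Fin M → Zt u v a} (r : R) (hr : ∀ s, (κ s : R) ≠ r) :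
    W u v a κ r = base u v a r := by
  unfold W
  rw [Function.extend_apply']
  rintro ⟨s, hs⟩
  exact hr s hs

theorem update_inj {κ : Fin M → Zt u v a} (hκ : Function.Injective κ) (s : Fin M) (x : Zt u v a)
    (hx : ∀ s', s' ≠ s → κ s' ≠ x) : Function.Injective (Function.update κ s x) := by
  intro i j hij
  by_cases hi : i = s
  · by_cases hj : j = s
    · rw [hi, hj]
    · rw [hi, Function.update_self, Function.update_of_ne hj] at hij
      exact absurd hij.symm (hx j hj)
  · by_cases hj : j = s
    · rw [hj, Function.update_self, Function.update_of_ne hi] at hij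
      exact absurd hij (hx i hi)
    · rw [Function.update_of_ne hi, Function.update_of_ne hj] at hij
      exact hκ hij

theorem W_update {κ : Fin M → Zt u v a} (hκ : Function.Injective κ) (s : Fin M) (x : Zt u v a)
    (hx : ∀ s', κ s' ≠ x) : W u v a (Function.update κ s x) =
      fun r => W u v a κ (Equiv.swap (κ s : R) (x : R) r) := by
  have hi : Function.Injective (Function.update κ s x) := update_inj hκ s x fun s' _ => hx s'
  funext r
  by_cases h1 : r = x
  · rw [h1, Equiv.swap_apply_right, W_apply hκ]
    have h2 := W_apply hi s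
    rw [Function.update_self] at h2
    exact h2
  · by_cases h2 : r = κ s
    · rw [h2, Equiv.swap_apply_left]
      rw [W_not (κ := κ) (x : R) (fun s' h => hx s' (Subtype.ext h)), base_Z, W_not, base_Z]
      intro s' hs'
      by_cases h3 : s' = s
      · rw [h3, Function.update_self] at hs'
        exact hx s (Subtype.ext hs'.symm)
      · rw [Function.update_of_ne h3] at hs'
        exact h3 (hκ (Subtype.ext hs'))
    · rw [Equiv.swap_apply_of_ne_of_ne h2 h1]
      by_cases h3 : ∃ s', (κ s' : R) = r
      · obtain ⟨s', hs'⟩ := h3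
        have h4 : s' ≠ s := by
          rintro rfl
          exact h2 hs'.symm
        have h5 := W_apply hi s'
        rw [Function.update_of_ne h4, hs'] at h5
        rw [h5, ← hs', W_apply hκ]
      · push Not at h3
        rw [W_not r h3, W_not]
        intro s' hs'
        by_cases h4 : s' = s
        · rw [h4, Function.update_self] at hs'
          exact h1 hs'.symm
        · rw [Function.update_of_ne h4] at hs'
          exact h3 s' hs'

end word

/-- DS-3b -/
theorem hook_vanish {R E : Type} [Fintype R] [DecidableEq R] [DecidableEq E] (M : ℕ)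
    (F : (R → E) → ℂ) (hF : VanC M ∅ F) (v : E) (a : Fin M → E) (ha : Function.Injective a)
    (hav : ∀ s, a s ≠ v)
    (H : ∀ (s : Fin M) (u : R → E),
      ∑ r ∈ Finset.univ.filter (fun r => u r = v), F (Function.update u r (a s)) = 0)
    (u : R → E) (hu : ∀ s, cnt u (a s) = 1) (hz : 2 ^ (M + 1) * M ^ 2 < cnt u v) : F u = 0 := by
  classical
  -- the function `G`
  let G : (Fin M → Zt u v a) → ℂ := fun κ => if Function.Injective κ then F (W u v a κ) else 0
  have hG : ∀ κ : Fin M → Zt u v a, Function.Injective κ → G κ = F (W u v a κ) := fun κ hκ =>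
    if_pos hκ
  have hG0 : ∀ κ : Fin M → Zt u v a, ¬ Function.Injective κ → G κ = 0 := fun κ hκ =>
    if_neg hκ
  have hcard : 2 ^ (M + 1) * M ^ 2 < Fintype.card (Zt u v a) := by
    refine hz.trans_le ?_
    rw [Fintype.card_subtype]
    exact Finset.card_le_card (fun r hr => by
      rw [Finset.mem_filter] at hr ⊢
      exact ⟨hr.1, Or.inl hr.2⟩)
  have hh1 : ∀ (κ : Fin M → Zt u v a) (s : Fin M), ∑ x, G (Function.update κ s x) = 0 := by
    intro κ s
    by_cases hκ : ∀ i j, i ≠ s → j ≠ s → κ i = κ j → i = j
    · -- the word without the letter `a s`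
      let W' : R → E := Function.extend (fun s' : {s' // s' ≠ s} => (κ s' : R))
        (fun s' => a s') (base u v a)
      have hinj : Function.Injective (fun s' : {s' // s' ≠ s} => (κ s' : R)) := by
        intro i j hij
        exact Subtype.ext (hκ i j i.2 j.2 (Subtype.ext hij))
      have hW1 : ∀ s', s' ≠ s → W' (κ s') = a s' := fun s' hs' =>
        hinj.extend_apply (fun s' : {s' // s' ≠ s} => a s') (base u v a) ⟨s', hs'⟩
      have hW2 : ∀ r : R, (∀ s', s' ≠ s → (κ s' : R) ≠ r) → W' r = base u v a r := by
        intro r hr
        show Function.extend (fun s' : {s' // s' ≠ s} => (κ s' : R))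
          (fun s' => a s') (base u v a) r = _
        rw [Function.extend_apply']
        rintro ⟨s', hs'⟩
        exact hr s'.1 s'.2 hs'
      have hupd : ∀ x : Zt u v a, (∀ s', s' ≠ s → κ s' ≠ x) →
          Function.Injective (Function.update κ s x) := by
        intro x hx i j hij
        by_cases hi : i = s
        · by_cases hj : j = s
          · rw [hi, hj]
          · rw [hi, Function.update_self, Function.update_of_ne hj] at hij
            exact absurd hij.symm (hx j hj)
        · by_cases hj : j = s
          · rw [hj, Function.update_self, Function.update_of_ne hi] at hij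
            exact absurd hij (hx i hi)
          · rw [Function.update_of_ne hi, Function.update_of_ne hj] at hij
            exact hκ i j hi hj hij
      have hWx : ∀ x : Zt u v a, (∀ s', s' ≠ s → κ s' ≠ x) →
          W u v a (Function.update κ s x) = Function.update W' x (a s) := by
        intro x hx
        have hi := hupd x hx
        funext r
        by_cases h1 : r = x
        · rw [h1, Function.update_self]
          have h2 := W_apply hi s
          rw [Function.update_self] at h2
          exact h2
        · rw [Function.update_of_ne h1]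
          by_cases h3 : ∃ s', s' ≠ s ∧ (κ s' : R) = r
          · obtain ⟨s', h4, hs'⟩ := h3
            have h5 := W_apply hi s'
            rw [Function.update_of_ne h4, hs'] at h5
            rw [h5, ← hs', hW1 s' h4]
          · push Not at h3
            rw [hW2 r h3, W_not]
            intro s' hs'
            by_cases h4 : s' = s
            · rw [h4, Function.update_self] at hs'
              exact h1 hs'.symm
            · rw [Function.update_of_ne h4] at hs'
              exact h3 s' h4 hs'
      have hWv : ∀ r, W' r = v ↔ ∃ x : Zt u v a, (∀ s', s' ≠ s → κ s' ≠ x) ∧ (x : R) = r := by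
        intro r
        constructor
        · intro hr
          have h1 : ∀ s', s' ≠ s → (κ s' : R) ≠ r := by
            intro s' hs' h
            rw [← h, hW1 s' hs'] at hr
            exact hav s' hr
          rw [hW2 r h1] at hr
          by_cases h2 : u r = v ∨ ∃ s, u r = a s
          · exact ⟨⟨r, h2⟩, fun s' hs' h => h1 s' hs' (congrArg Subtype.val h), rfl⟩
          · rw [base_not r h2] at hr
            exact absurd (Or.inl hr) h2
        · rintro ⟨x, hx, rfl⟩
          rw [hW2 _ fun s' hs' h => hx s' hs' (Subtype.ext h), base_Z]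
      have hs := H s W'
      rw [← hs]
      -- compare the two sums
      have e1 : ∑ x, G (Function.update κ s x) = ∑ x ∈ Finset.univ.filter
          (fun x : Zt u v a => ∀ s', s' ≠ s → κ s' ≠ x), F (Function.update W' x (a s)) := by
        rw [Finset.sum_filter]
        refine Finset.sum_congr rfl fun x _ => ?_
        by_cases hx : ∀ s', s' ≠ s → κ s' ≠ x
        · rw [if_pos hx, hG _ (hupd x hx), hWx x hx]
        · rw [if_neg hx, hG0]
          push Not at hx
          obtain ⟨s', hs', hx⟩ := hx
          intro hi
          apply hs'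
          apply hi
          rw [Function.update_of_ne hs', Function.update_self, hx]
      rw [e1]
      refine Finset.sum_bij (fun x _ => (x : R)) ?_ ?_ ?_ ?_
      · intro x hx
        rw [Finset.mem_filter] at hx ⊢
        exact ⟨Finset.mem_univ _, (hWv _).2 ⟨x, hx.2, rfl⟩⟩
      · intro x _ y _ h
        exact Subtype.ext h
      · intro r hr
        rw [Finset.mem_filter] at hr
        obtain ⟨x, hx, hxr⟩ := (hWv r).1 hr.2
        exact ⟨x, by rw [Finset.mem_filter]; exact ⟨Finset.mem_univ _, hx⟩, hxr⟩
      · intro x _
        rfl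
    · push Not at hκ
      obtain ⟨i, j, hi, hj, hij, hne⟩ := hκ
      refine Finset.sum_eq_zero fun x _ => hG0 _ fun hinj => hne ?_
      apply hinj
      rw [Function.update_of_ne hi, Function.update_of_ne hj, hij]
  have hh2 : ∀ κ y : Fin M → Zt u v a, Function.Injective (Sum.elim κ y) →
      ∑ S : Finset (Fin M), (-1) ^ S.card * G (S.piecewise y κ) = 0 := by
    intro κ y hκy
    have hκκ : ∀ i j, κ i = κ j → i = j := fun i j h => by
      have := hκy (a₁ := Sum.inl i) (a₂ := Sum.inl j) h
      exact Sum.inl.inj this
    have hyy : ∀ i j, y i = y j → i = j := fun i j h => by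
      have := hκy (a₁ := Sum.inr i) (a₂ := Sum.inr j) h
      exact Sum.inr.inj this
    have hne : ∀ i j, κ i ≠ y j := fun i j h => by
      have := hκy (a₁ := Sum.inl i) (a₂ := Sum.inr j) h
      exact Sum.inl_ne_inr this
    have hpi : ∀ S : Finset (Fin M), Function.Injective (S.piecewise y κ) := by
      intro S i j hij
      by_cases hi : i ∈ S
      · by_cases hj : j ∈ S
        · rw [Finset.piecewise_eq_of_mem _ _ _ hi, Finset.piecewise_eq_of_mem _ _ _ hj] at hij
          exact hyy i j hij
        · rw [Finset.piecewise_eq_of_mem _ _ _ hi, Finset.piecewise_eq_of_notMem _ _ _ hj] at hij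
          exact absurd hij.symm (hne j i)
      · by_cases hj : j ∈ S
        · rw [Finset.piecewise_eq_of_notMem _ _ _ hi, Finset.piecewise_eq_of_mem _ _ _ hj] at hij
          exact absurd hij (hne i j)
        · rw [Finset.piecewise_eq_of_notMem _ _ _ hi,
            Finset.piecewise_eq_of_notMem _ _ _ hj] at hij
          exact hκκ i j hij
    have key := vanC_sum (fun j => (κ j : R)) (fun j => (y j : R))
      (fun S => W u v a (S.piecewise y κ)) (Finset.univ : Finset (Fin M)) ∅ F
      (by rw [Finset.card_univ, Fintype.card_fin]; exact hF)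
      (fun j _ => ⟨Finset.notMem_empty _, Finset.notMem_empty _⟩)
      (fun j _ h => hne j j (Subtype.ext h))
      (fun j _ j' _ hjj' => ⟨fun h => hjj' (hκκ j j' (Subtype.ext h)),
        fun h => hne j j' (Subtype.ext h), fun h => hjj' (hyy j j' (Subtype.ext h))⟩)
      (fun S _ j _ hj => by
        show W u v a ((insert j S).piecewise y κ) = _
        rw [Finset.piecewise_insert]
        rw [W_update (hpi S) j (y j)]
        · rw [Finset.piecewise_eq_of_notMem _ _ _ hj]
        · intro s' hs'
          by_cases h : s' ∈ S
          · rw [Finset.piecewise_eq_of_mem _ _ _ h] at hs'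
            exact hj (hyy _ _ hs' ▸ h)
          · rw [Finset.piecewise_eq_of_notMem _ _ _ h] at hs'
            exact hne _ _ hs')
    rw [Finset.powerset_univ] at key
    rw [← key]
    refine Finset.sum_congr rfl fun S _ => ?_
    rw [hG _ (hpi S)]
  -- the word `u`
  have hex : ∀ s, ∃ r, ∀ r', u r' = a s ↔ r' = r := by
    intro s
    obtain ⟨r, hr⟩ := Finset.card_eq_one.1 (hu s)
    refine ⟨r, fun r' => ?_⟩
    have : r' ∈ Finset.univ.filter (fun r => u r = a s) ↔ r' ∈ ({r} : Finset R) := by rw [hr]
    simpa using this
  choose ρ hρ using hex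
  let κ : Fin M → Zt u v a := fun s => ⟨ρ s, Or.inr ⟨s, (hρ s _).2 rfl⟩⟩
  have hκ : Function.Injective κ := by
    intro i j hij
    have h1 : ρ i = ρ j := congrArg Subtype.val hij
    apply ha
    rw [← (hρ i (ρ i)).2 rfl, h1, (hρ j (ρ j)).2 rfl]
  have hWu : W u v a κ = u := by
    funext r
    by_cases h1 : ∃ s, ρ s = r
    · obtain ⟨s, rfl⟩ := h1
      rw [(hρ s (ρ s)).2 rfl]
      exact W_apply hκ s
    · push Not at h1
      rw [W_not r h1]
      by_cases h2 : u r = v ∨ ∃ s, u r = a s
      · have h3 := base_Z (⟨r, h2⟩ : Zt u v a)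
        change base u v a r = v at h3
        rw [h3]
        rcases h2 with h2 | ⟨s, h2⟩
        · exact h2.symm
        · exact absurd ((hρ s r).1 h2).symm (h1 s)
      · exact base_not r h2
  rw [← hWu, ← hG κ hκ]
  exact inj_vanish M hcard G hG0 hh1 hh2 κ

end

end Pool.Agent.Helper77.DS
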