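import Pool.Agent.Helper77.DS.Col
import Pool.Agent.Helper77.DSR.Column

/-!
DS-5 (MP_b07a0a): all columns.
-/

namespace Pool.Agent.Helper77.DS


noncomputable section

variable {R I E : Type}

/-- Replace column `i` by `u`. -/
def setcol [DecidableEq I] (t : R → I → E) (i : I) (u : R → E) : R → I → E :=
  fun r => Function.update (t r) i (u r)

lemma setcol_self [DecidableEq I] (t : R → I → E) (i : I) :
    setcol t i (fun r => t r i) = t := by
  funext r j
  simp [setcol]

lemma setcol_col [DecidableEq I] (t : R → I → E) (i : I) (u : R → E) (r : R) :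
    setcol t i u r i = u r := by
  simp [setcol]

lemma setcol_ne [DecidableEq I] (t : R → I → E) (i : I) (u : R → E) (r : R) {j : I}
    (h : j ≠ i) : setcol t i u r j = t r j := by
  simp [setcol, Function.update_of_ne h]

lemma setcol_setcol [DecidableEq I] (t : R → I → E) (i : I) (u v : R → E) :
    setcol (setcol t i u) i v = setcol t i v := by
  funext r j
  by_cases h : j = i
  · subst h
    rw [setcol_col, setcol_col]
  · rw [setcol_ne _ _ _ _ h, setcol_ne _ _ _ _ h, setcol_ne _ _ _ _ h]

lemma sw_setcol [DecidableEq R] [DecidableEq I] (P Q : R) (i : I) (t : R → I → E) (u : R → E) :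
    sw P Q i (setcol t i u) = setcol t i (fun r => u (Equiv.swap P Q r)) := by
  funext r j
  unfold sw
  by_cases h : j = i
  · subst h
    rw [if_pos rfl, setcol_col, setcol_col]
  · rw [if_neg h, setcol_ne _ _ _ _ h, setcol_ne _ _ _ _ h]

/-- A function on tables as a function of column `i`. -/
def slice [DecidableEq I] (i : I) : ((R → I → E) → ℂ) →ₗ[ℂ] ((R → E) → (R → I → E) → ℂ) where
  toFun f := fun u z => f (setcol z i u)
  map_add' f g := rfl
  map_smul' a f := rfl

lemma slice_apply [DecidableEq I] (i : I) (f : (R → I → E) → ℂ) (u : R → E) (z : R → I → E) :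
    slice i f u z = f (setcol z i u) := rfl

lemma vanC_of_van [DecidableEq R] [DecidableEq I] (i : I) (k : ℕ) (U : Finset R)
    (f : (R → I → E) → ℂ) (h : Van k U f) : VanC k U (slice i f) := by
  induction k generalizing U f with
  | zero =>
    intro u
    funext z
    exact h _
  | succ k ih =>
    intro P Q hP hQ hPQ
    have h1 := ih _ _ (h P Q hP hQ hPQ i)
    have h2 : (fun u => slice i f u - slice i f (fun r => u (Equiv.swap P Q r))) =
        slice i (fun t => f t - f (sw P Q i t)) := by
      funext u z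
      simp only [slice_apply, Pi.sub_apply, sw_setcol]
    rw [h2]
    exact h1

/-- The matrix `B` in column `i`, the identity matrix elsewhere. -/
def colMat [DecidableEq I] [DecidableEq E] (i : I) (B : E → E → ℂ) : I → E → E → ℂ :=
  fun j a b => if j = i then B a b else if a = b then 1 else 0

lemma tact_colMat [Fintype R] [DecidableEq R] [Fintype I] [DecidableEq I] [Fintype E]
    [DecidableEq E] (i : I) (B : E → E → ℂ) (f : (R → I → E) → ℂ) (t : R → I → E) :
    tact (colMat i B) f t = ∑ v : R → E, (∏ r, B (t r i) (v r)) * f (setcol t i v) := by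
  classical
  unfold tact
  have hinj : Function.Injective (fun v : R → E => setcol t i v) := by
    intro v w h
    funext r
    have h1 := congrFun (congrFun h r) i
    simp only [setcol_col] at h1
    exact h1
  rw [← Finset.sum_subset (Finset.subset_univ (Finset.univ.image (fun v : R → E =>
    setcol t i v)))]
  · rw [Finset.sum_image (fun v _ w _ h => hinj h)]
    refine Finset.sum_congr rfl fun v _ => ?_
    congr 1
    refine Finset.prod_congr rfl fun r _ => ?_
    rw [Finset.prod_eq_single i]
    · rw [setcol_col]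
      simp [colMat]
    · intro j _ hj
      rw [setcol_ne _ _ _ _ hj]
      simp [colMat, hj]
    · intro h
      exact absurd (Finset.mem_univ i) h
  · intro s _ hs
    have h1 : ∃ r, ∃ j, j ≠ i ∧ t r j ≠ s r j := by
      by_contra hcon
      push Not at hcon
      apply hs
      rw [Finset.mem_image]
      refine ⟨fun r => s r i, Finset.mem_univ _, ?_⟩
      funext r j
      by_cases h : j = i
      · subst h
        rw [setcol_col]
      · rw [setcol_ne _ _ _ _ h]
        exact hcon r j h
    obtain ⟨r, j, hj, hne⟩ := h1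
    rw [Finset.prod_eq_zero (Finset.mem_univ r), zero_mul]
    apply Finset.prod_eq_zero (Finset.mem_univ j)
    simp [colMat, hj, hne]

lemma cact_slice [Fintype R] [DecidableEq R] [Fintype I] [DecidableEq I] [Fintype E]
    [DecidableEq E] (i : I) (B : E → E → ℂ) (f : (R → I → E) → ℂ) :
    cact B (slice i f) = slice i (tact (colMat i B) f) := by
  funext u z
  rw [slice_apply, tact_colMat]
  unfold cact
  rw [Finset.sum_apply]
  refine Finset.sum_congr rfl fun v _ => ?_
  rw [Pi.smul_apply, slice_apply, smul_eq_mul, setcol_setcol]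
  congr 1
  refine Finset.prod_congr rfl fun r _ => ?_
  rw [setcol_col]

/-- The functions supported on tables with a property. -/
def suppOn {T : Type} (p : T → Prop) : Submodule ℂ (T → ℂ) where
  carrier := {f | ∀ t, f t ≠ 0 → p t}
  zero_mem' := by
    intro t ht
    exact absurd rfl ht
  add_mem' := by
    intro f g hf hg t ht
    by_cases h : f t = 0
    · refine hg t ?_
      intro h2
      apply ht
      rw [Pi.add_apply, h, h2, add_zero]
    · exact hf t h
  smul_mem' := by
    intro a f hf t ht
    refine hf t ?_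
    intro h
    apply ht
    rw [Pi.smul_apply, h, smul_zero]

lemma mem_suppOn {T : Type} (p : T → Prop) (f : T → ℂ) :
    f ∈ suppOn p ↔ ∀ t, f t ≠ 0 → p t := Iff.rfl

/-- Column `i` of the table `t` is special with letters `x`. -/
def GoodCol [Fintype R] [DecidableEq E] (D : ℕ) (x : Fin (D + 1) → E) (t : R → I → E)
    (i : I) : Prop :=
  cnt (fun r => t r i) (x 0) = Fintype.card R - D ∧
    ∀ c : Fin (D + 1), c ≠ 0 → cnt (fun r => t r i) (x c) = 1

lemma induct [Fintype R] [DecidableEq R] [Fintype I] [DecidableEq I] [Fintype E]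
    [DecidableEq E] (D : ℕ) (N : Submodule ℂ ((R → I → E) → ℂ))
    (hN : ∀ (A : I → E → E → ℂ), ∀ f ∈ N, tact A f ∈ N)
    (hE : Fintype.card R + 1 ≤ Fintype.card E)
    (hR : (K0 D ≤ Fintype.card R ∧ ∀ f ∈ N, Van (D + 1) ∅ f) ∨ Fintype.card R = D)
    (x : Fin (D + 1) → E) (hx : Function.Injective x) (h0 : N ≠ ⊥) (J : Finset I) :
    ∃ f ∈ N, f ≠ 0 ∧ ∀ t, f t ≠ 0 → ∀ i ∈ J, GoodCol D x t i := by
  induction J using Finset.induction_on with
  | empty =>
    obtain ⟨f, hf, hf0⟩ := (Submodule.ne_bot_iff N).1 h0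
    exact ⟨f, hf, hf0, fun t _ i hi => absurd hi (Finset.notMem_empty i)⟩
  | insert i J hiJ ih =>
    obtain ⟨f0, hf0, hf00, hf0J⟩ := ih
    set N1 : Submodule ℂ ((R → I → E) → ℂ) :=
      N ⊓ suppOn (fun t => ∀ j ∈ J, GoodCol D x t j) with hN1
    set N2 : Submodule ℂ ((R → E) → (R → I → E) → ℂ) := N1.map (slice i) with hN2
    have hcl : ∀ B : E → E → ℂ, ∀ F ∈ N2, cact B F ∈ N2 := by
      intro B F hF
      obtain ⟨f, hf, rfl⟩ := Submodule.mem_map.1 hF
      rw [cact_slice]
      refine Submodule.mem_map_of_mem ?_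
      refine Submodule.mem_inf.2 ⟨hN _ f (Submodule.mem_inf.1 hf).1, ?_⟩
      rw [mem_suppOn]
      intro t ht j hj
      rw [tact_colMat] at ht
      obtain ⟨v, _, hv⟩ := Finset.exists_ne_zero_of_sum_ne_zero ht
      have hv2 : f (setcol t i v) ≠ 0 := right_ne_zero_of_mul hv
      have h3 := (mem_suppOn _ _).1 (Submodule.mem_inf.1 hf).2 _ hv2 j hj
      have hji : j ≠ i := fun h => hiJ (h ▸ hj)
      have h4 : (fun r => setcol t i v r j) = (fun r => t r j) := by
        funext r
        rw [setcol_ne _ _ _ _ hji]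
      unfold GoodCol at h3 ⊢
      rw [h4] at h3
      exact h3
    have hR2 : (K0 D ≤ Fintype.card R ∧ ∀ F ∈ N2, VanC (D + 1) ∅ F) ∨ Fintype.card R = D := by
      rcases hR with ⟨h1, h2⟩ | h
      · left
        refine ⟨h1, ?_⟩
        intro F hF
        obtain ⟨f, hf, rfl⟩ := Submodule.mem_map.1 hF
        exact vanC_of_van i _ _ _ (h2 f (Submodule.mem_inf.1 hf).1)
      · exact Or.inr h
    have hne : ∀ f : (R → I → E) → ℂ, ∀ t, f t ≠ 0 → slice i f (fun r => t r i) ≠ 0 := by
      intro f t ht h
      have h1 := congrFun h t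
      rw [slice_apply, setcol_self] at h1
      exact ht h1
    have hbot : N2 ≠ ⊥ := by
      obtain ⟨t, ht⟩ : ∃ t, f0 t ≠ 0 := by
        by_contra hcon
        push Not at hcon
        exact hf00 (funext hcon)
      refine (Submodule.ne_bot_iff N2).2 ⟨slice i f0, Submodule.mem_map_of_mem
        (Submodule.mem_inf.2 ⟨hf0, hf0J⟩), ?_⟩
      intro h
      exact hne f0 t ht (congrFun h _)
    obtain ⟨F, hF, hF0, hFs⟩ := column D N2 hcl hE hR2 x hx hbot
    obtain ⟨f, hf, rfl⟩ := Submodule.mem_map.1 hF
    refine ⟨f, (Submodule.mem_inf.1 hf).1, ?_, ?_⟩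
    · intro h
      apply hF0
      rw [h, map_zero]
    · intro t ht j hj
      rcases Finset.mem_insert.1 hj with rfl | hj
      · exact hFs _ (hne f t ht)
      · exact (mem_suppOn _ _).1 (Submodule.mem_inf.1 hf).2 t ht j hj

/-- The matrix of a map of letters. -/
def letMat [DecidableEq E] {E' : Type} (x : E' → E) : I → E' → E → ℂ :=
  fun _ c' c => if c = x c' then 1 else 0

lemma tact_letMat [Fintype R] [DecidableEq R] [Fintype I] [DecidableEq I] [Fintype E]
    [DecidableEq E] {E' : Type} (x : E' → E) (f : (R → I → E) → ℂ) (t : R → I → E') :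
    tact (letMat x) f t = f (fun r i => x (t r i)) := by
  unfold tact
  rw [Finset.sum_eq_single (fun r i => x (t r i))]
  · simp [letMat]
  · intro s _ hs
    have h1 : ∃ r, ∃ j, s r j ≠ x (t r j) := by
      by_contra hcon
      push Not at hcon
      exact hs (funext fun r => funext fun j => hcon r j)
    obtain ⟨r, j, hne⟩ := h1
    rw [Finset.prod_eq_zero (Finset.mem_univ r), zero_mul]
    apply Finset.prod_eq_zero (Finset.mem_univ j)
    simp [letMat, hne]
  · intro h
    exact absurd (Finset.mem_univ _) h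

/-- The transposed matrix of a map of letters. -/
def letMatT [DecidableEq E] {E' : Type} (x : E' → E) : I → E → E' → ℂ :=
  fun _ c c' => if c = x c' then 1 else 0

lemma tact_letMatT [Fintype R] [DecidableEq R] [Fintype I] [DecidableEq I]
    [DecidableEq E] {E' : Type} [Fintype E'] [DecidableEq E'] (x : E' → E)
    (hx : Function.Injective x) (f : (R → I → E') → ℂ) (t : R → I → E') :
    tact (letMatT x) f (fun r i => x (t r i)) = f t := by
  unfold tact
  rw [Finset.sum_eq_single t]
  · simp [letMatT]
  · intro s _ hs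
    have h1 : ∃ r, ∃ j, t r j ≠ s r j := by
      by_contra hcon
      push Not at hcon
      exact hs (funext fun r => funext fun j => (hcon r j).symm)
    obtain ⟨r, j, hne⟩ := h1
    rw [Finset.prod_eq_zero (Finset.mem_univ r), zero_mul]
    apply Finset.prod_eq_zero (Finset.mem_univ j)
    simp [letMatT, hx.eq_iff, hne]
  · intro h
    exact absurd (Finset.mem_univ _) h

lemma D_le_K0 (D : ℕ) : D ≤ K0 D := by
  unfold K0
  have h1 : 1 ≤ 2 ^ (D + 2) * (D + 1) ^ 2 + 1 := Nat.le_add_left 1 _
  calc D ≤ 2 * (D + 1) * 1 := by omega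
    _ ≤ _ := Nat.mul_le_mul_left _ h1

/-- All letters of a good column are among the `x c`. -/
lemma good_range [Fintype R] [DecidableEq R] [DecidableEq E] (D : ℕ)
    (hD : D ≤ Fintype.card R) (x : Fin (D + 1) → E)
    (hx : Function.Injective x) (t : R → I → E) (i : I) (h : GoodCol D x t i) (r : R) :
    ∃ c, x c = t r i := by
  classical
  obtain ⟨h1, h2⟩ := h
  unfold cnt at h1 h2
  set S : Finset R := Finset.univ.biUnion
    (fun c : Fin (D + 1) => Finset.univ.filter (fun r => t r i = x c)) with hS
  have hcard : S.card = Fintype.card R := by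
    rw [hS, Finset.card_biUnion]
    · rw [Fin.sum_univ_succ, h1]
      have h3 : ∀ c : Fin D, (Finset.univ.filter (fun r => t r i = x c.succ)).card = 1 :=
        fun c => h2 _ (Fin.succ_ne_zero c)
      rw [Finset.sum_congr rfl (fun c _ => h3 c)]
      simp only [Finset.sum_const, Finset.card_univ, Fintype.card_fin, smul_eq_mul, mul_one]
      omega
    · intro c _ c' _ hcc
      refine Finset.disjoint_left.2 ?_
      intro r hr hr'
      simp only [Finset.mem_filter, Finset.mem_univ, true_and] at hr hr'
      exact hcc (hx (hr.symm.trans hr'))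
  have hSu : S = Finset.univ := (Finset.card_eq_iff_eq_univ S).1 hcard
  have hr : r ∈ S := by
    rw [hSu]
    exact Finset.mem_univ r
  rw [hS, Finset.mem_biUnion] at hr
  obtain ⟨c, _, hc⟩ := hr
  exact ⟨c, ((Finset.mem_filter.1 hc).2).symm⟩

/-- DS-5 -/
theorem special_exists {R I : Type} [Fintype R] [DecidableEq R] [Fintype I] [DecidableEq I]
    (D : ℕ) (N : ∀ m : ℕ, Submodule ℂ ((R → I → Fin m) → ℂ))
    (hN : ∀ (m m' : ℕ) (A : I → Fin m' → Fin m → ℂ), ∀ f ∈ N m, tact A f ∈ N m')
    (hR : (K0 D ≤ Fintype.card R ∧ ∀ m, ∀ f ∈ N m, Van (D + 1) ∅ f) ∨ Fintype.card R = D)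
    (m : ℕ) (h0 : N m ≠ ⊥) : ∃ f ∈ N (D + 1), f ≠ 0 ∧ ∀ t, f t ≠ 0 → Spec D t := by
  classical
  have hD : D ≤ Fintype.card R := by
    rcases hR with ⟨h, _⟩ | h
    · exact le_trans (D_le_K0 D) h
    · exact h.ge
  set M : ℕ := m + (Fintype.card R + 1) + (D + 1) with hM
  have hmM : m ≤ M := by omega
  have hDM : D + 1 ≤ M := by omega
  have hKM : Fintype.card R + 1 ≤ M := by omega
  have hbot : N M ≠ ⊥ := by
    obtain ⟨f, hf, hf0⟩ := (Submodule.ne_bot_iff _).1 h0
    obtain ⟨t, ht⟩ : ∃ t, f t ≠ 0 := by
      by_contra hcon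
      push Not at hcon
      exact hf0 (funext hcon)
    refine (Submodule.ne_bot_iff _).2 ⟨tact (letMatT (Fin.castLE hmM)) f, hN _ _ _ f hf, ?_⟩
    intro h
    apply ht
    rw [← tact_letMatT (Fin.castLE hmM) (Fin.castLE_injective hmM) f t, h]
    rfl
  have hx : Function.Injective (Fin.castLE hDM) := Fin.castLE_injective hDM
  obtain ⟨f, hf, hf0, hfs⟩ := induct D (N M) (fun A f hf => hN M M A f hf)
    (by rw [Fintype.card_fin]; exact hKM) (hR.imp (fun h => ⟨h.1, h.2 M⟩) id)
    (Fin.castLE hDM) hx hbot Finset.univ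
  refine ⟨tact (letMat (Fin.castLE hDM)) f, hN _ _ _ f hf, ?_, ?_⟩
  · obtain ⟨t, ht⟩ : ∃ t, f t ≠ 0 := by
      by_contra hcon
      push Not at hcon
      exact hf0 (funext hcon)
    have h1 : ∀ r i, ∃ c, Fin.castLE hDM c = t r i := fun r i =>
      good_range D hD _ hx t i (hfs t ht i (Finset.mem_univ i)) r
    choose t' ht' using h1
    intro h
    apply ht
    have h2 : tact (letMat (Fin.castLE hDM)) f t' = f t := by
      rw [tact_letMat]
      congr 1
      funext r i
      exact ht' r i
    rw [← h2, h]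
    rfl
  · intro t ht i c hc
    rw [tact_letMat] at ht
    have h1 := (hfs _ ht i (Finset.mem_univ i)).2 c hc
    unfold cnt at h1
    refine Eq.trans ?_ h1
    congr 1
    ext r
    simp only [Finset.mem_filter, Finset.mem_univ, true_and]
    exact hx.eq_iff.symm

end

end Pool.Agent.Helper77.DS
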